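import Pool.Agent.Q150.RSkel

/-!
# MP_fcea8d_gt: retractional skeletons can be indexed by their ranges
-/

set_option autoImplicit false

open Set Topology Filter Uniformity

universe u v

namespace Pool.Agent.Results.MP_fcea8d_gt.RangeIndexed

open Pool.Agent.Q150.RSkel

section

variable {K : Type u} [UniformSpace K] [CompactSpace K] [T2Space K] {Γ : Type v} [PartialOrder Γ]
  {r : Γ → K → K} {w : Γ → Γ → Γ} {γ : Γ} {R : Set Γ → K → K}

/-- the members of `E` before `s` -/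
def Below (E : Set Γ) (s : Γ) : Set Γ := {t | t ∈ E ∧ WellOrderingRel t s}

omit [UniformSpace K] [CompactSpace K] [T2Space K] [PartialOrder Γ] in
theorem exists_E (r : Γ → K → K) (R : Set Γ → K → K) :
    ∃ E : Set Γ, ∀ s, s ∈ E ↔ ∃ x, r s x = x ∧ R (Below E s) x ≠ x := by
  have wf : WellFounded (WellOrderingRel (α := Γ)) := IsWellFounded.wf
  let Φ : (s : Γ) → ((t : Γ) → WellOrderingRel t s → Prop) → Prop :=
    fun s ih => ∃ x, r s x = x ∧ R {t | ∃ h : WellOrderingRel t s, ih t h} x ≠ x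
  refine ⟨{s | wf.fix Φ s}, fun s => ?_⟩
  have h1 : wf.fix Φ s = Φ s fun t _ => wf.fix Φ t := wf.fix_eq Φ s
  have h2 : Below {s | wf.fix Φ s} s = {t | ∃ _ : WellOrderingRel t s, wf.fix Φ t} := by
    ext t
    constructor
    · rintro ⟨h, h'⟩
      exact ⟨h', h⟩
    · rintro ⟨h, h'⟩
      exact ⟨h', h⟩
  rw [h2]
  change wf.fix Φ s ↔ _
  rw [h1]

/-- closed countable sets of indices -/
def Closed (w : Γ → Γ → Γ) (γ : Γ) (Sf : Γ → Set Γ → Set Γ) (E A : Set Γ) : Prop :=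
  A ⊆ E ∧ A.Countable ∧ ∀ t ∈ gen w γ A, ∀ b ∈ A, Sf t (Below E b) ⊆ A

omit [PartialOrder Γ] in
theorem closed_iUnion {Sf : Γ → Set Γ → Set Γ} {E : Set Γ} {A : ℕ → Set Γ} (hA : Monotone A)
    (h : ∀ n, Closed w γ Sf E (A n)) : Closed w γ Sf E (⋃ n, A n) := by
  refine ⟨iUnion_subset fun n => (h n).1, countable_iUnion fun n => (h n).2.1, fun t ht b hb => ?_⟩
  obtain ⟨n, hn⟩ := gen_iUnion hA ht
  obtain ⟨m, hm⟩ := mem_iUnion.mp hb
  exact ((h (max n m)).2.2 t (gen_mono (hA (le_max_left _ _)) hn) b (hA (le_max_right _ _) hm)).trans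
    (subset_iUnion A _)

omit [PartialOrder Γ] in
theorem closed_cofinal {Sf : Γ → Set Γ → Set Γ} (hSf1 : ∀ t B, Sf t B ⊆ B) (hSf2 : ∀ t B, (Sf t B).Countable)
    {E A₀ : Set Γ} (hA : A₀ ⊆ E) (hc : A₀.Countable) : ∃ A, Closed w γ Sf E A ∧ A₀ ⊆ A := by
  let L : ℕ → Set Γ := fun n => Nat.rec A₀ (fun _ C => C ∪ ⋃ t ∈ gen w γ C, ⋃ b ∈ C, Sf t (Below E b)) n
  have hL1 : ∀ n, L (n + 1) = L n ∪ ⋃ t ∈ gen w γ (L n), ⋃ b ∈ L n, Sf t (Below E b) := fun n => rfl
  have hLE : ∀ n, L n ⊆ E ∧ (L n).Countable := by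
    intro n
    induction n with
    | zero => exact ⟨hA, hc⟩
    | succ n ih =>
      rw [hL1]
      constructor
      · refine union_subset ih.1 (iUnion₂_subset fun t _ => iUnion₂_subset fun b _ => ?_)
        exact (hSf1 t _).trans fun x hx => hx.1
      · exact ih.2.union ((gen_countable ih.2).biUnion fun t _ => ih.2.biUnion fun b _ => hSf2 t _)
  have hmono : Monotone L := monotone_nat_of_le_succ fun n => by
    rw [hL1]
    exact subset_union_left
  refine ⟨⋃ n, L n, ⟨iUnion_subset fun n => (hLE n).1, countable_iUnion fun n => (hLE n).2, fun t ht b hb => ?_⟩,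
    subset_iUnion L 0⟩
  obtain ⟨n, hn⟩ := gen_iUnion hmono ht
  obtain ⟨m, hm⟩ := mem_iUnion.mp hb
  refine Subset.trans ?_ (subset_iUnion L (max n m + 1))
  rw [hL1]
  refine Subset.trans ?_ subset_union_right
  exact subset_biUnion_of_mem (u := fun t => ⋃ b ∈ L (max n m), Sf t (Below E b))
    (gen_mono (hmono (le_max_left _ _)) hn) |>.trans' (subset_biUnion_of_mem (u := fun b => Sf t (Below E b))
      (hmono (le_max_right _ _) hm))

omit [CompactSpace K] in
/-- the indices of a closed set can be recovered from the range -/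
theorem recover (D : Data r w γ R) {Sf : Γ → Set Γ → Set Γ} (hSf0 : ∀ t B, Sf t B ⊆ B)
    (hSf : ∀ t B S', Sf t B ⊆ S' → S' ⊆ B → ∀ x, r t (R B x) = r t (R S' x)) {E A : Set Γ}
    (hA : Closed w γ Sf E A) {s : Γ} (hs : s ∈ E) {x : K} (hx : r s x = x) (hx' : R (Below E s) x ≠ x)
    (hxA : R A x = x) : s ∈ A := by
  by_contra hsA
  have wf : WellFounded (WellOrderingRel (α := Γ)) := IsWellFounded.wf
  have tri : ∀ a b : Γ, WellOrderingRel a b ∨ a = b ∨ WellOrderingRel b a := fun a b =>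
    trichotomous_of WellOrderingRel a b
  by_cases hb : ∃ b, b ∈ A ∧ WellOrderingRel s b
  · let b := wf.min {b | b ∈ A ∧ WellOrderingRel s b} hb
    have hb1 : b ∈ A ∧ WellOrderingRel s b := wf.min_mem _ hb
    have hb2 : ∀ a ∈ A, WellOrderingRel s a → ¬ WellOrderingRel a b := fun a ha hsa =>
      wf.not_lt_min _ (show a ∈ {b | b ∈ A ∧ WellOrderingRel s b} from ⟨ha, hsa⟩)
    let S' : Set Γ := {a | a ∈ A ∧ WellOrderingRel a b}
    have hS'1 : S' ⊆ Below E b := fun a ha => ⟨hA.1 ha.1, ha.2⟩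
    have hS'2 : S' ⊆ Below E s := by
      intro a ha
      refine ⟨hA.1 ha.1, ?_⟩
      rcases tri a s with h | h | h
      · exact h
      · exact absurd (h ▸ ha.1) hsA
      · exact absurd ha.2 (hb2 a ha.1 h)
    have hsb : s ∈ Below E b := ⟨hs, hb1.2⟩
    have h1 : R (Below E b) x = x := by
      rw [← hx]
      exact D.fix' hsb x
    have h2 : ∀ t ∈ gen w γ A, r t x = r t (R S' x) := by
      intro t ht
      have h3 : Sf t (Below E b) ⊆ A := hA.2.2 t ht b hb1.1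
      have := hSf t (Below E b) S' (fun a ha => ⟨h3 ha, (hSf0 t _ ha).2⟩) hS'1 x
      rwa [h1] at this
    have h5 : R A x = R A (R S' x) := (D.hR A).congr h2
    rw [hxA, D.big (fun a ha => ha.1 : S' ⊆ A)] at h5
    apply hx'
    rw [h5]
    exact D.big hS'2 x
  · push Not at hb
    have h1 : A ⊆ Below E s := by
      intro a ha
      refine ⟨hA.1 ha, ?_⟩
      rcases tri a s with h | h | h
      · exact h
      · exact absurd (h ▸ ha) hsA
      · exact absurd h (hb a ha)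
    apply hx'
    rw [← hxA]
    exact D.big h1 x

omit [CompactSpace K] in
theorem lim_mono (D : Data r w γ R) (B : Set Γ) {V : Set (K × K)} (hV : V ∈ 𝓤 K) :
    ∃ a ∈ gen w γ B, ∀ C ⊆ B, a ∈ gen w γ C → ∀ x, (R C x, R B x) ∈ V := by
  obtain ⟨W, hW, hWs, hWV⟩ := comp_symm_mem_uniformity_sets hV
  obtain ⟨a, ha, haB⟩ := D.hR B W hW
  refine ⟨a, ha, fun C hC haC x => ?_⟩
  obtain ⟨c, hc, hcC⟩ := D.hR C W hW
  obtain ⟨b, hb, hab, hcb⟩ := D.dir C a haC c hc
  exact hWV ⟨r b x, hWs.symm _ _ (hcC b hb hcb x), haB b (gen_mono hC hb) hab x⟩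

theorem main (h : RetractionalSkeleton r) : ∃ (𝓕 : Set (Set K)) (ρ : 𝓕 → K → K),
    (∀ F ∈ 𝓕, IsCompact F) ∧
    (∀ F : ℕ → 𝓕, Monotone F → ∃ hF : closure (⋃ n, (F n : Set K)) ∈ 𝓕,
      IsLUB (range F) ⟨closure (⋃ n, (F n : Set K)), hF⟩) ∧
    (∀ F : 𝓕, range (ρ F) = F) ∧ RetractionalSkeleton ρ ∧ induced ρ = induced r := by
  classical
  obtain ⟨γ⟩ := h.nonempty
  choose w hw using h.directed
  choose R hR using fun B => exists_isLim h (gen_directed hw B) (gen_nonempty (γ := γ) B)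
  have D : Data r w γ R := ⟨h, hw, hR⟩
  choose Sf hSf1 hSf2 hSf3 using fun t B => D.starS t B
  obtain ⟨E, hE⟩ := exists_E r R
  -- the limits over all of `E` is the identity
  have hcap : ∀ s, ∃ A ⊆ E, A.Countable ∧ ∀ x, R A (r s x) = r s x := by
    intro s
    by_cases hs : s ∈ E
    · exact ⟨{s}, singleton_subset_iff.mpr hs, countable_singleton s, fun x => D.fix' (mem_singleton s) x⟩
    · obtain ⟨A, hA, hAc, hAs⟩ := D.capture s (Below E s) (by
        intro x hx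
        by_contra hne
        exact hs ((hE s).mpr ⟨x, hx, hne⟩))
      exact ⟨A, fun a ha => (hA ha).1, hAc, hAs⟩
  have hRE : ∀ x, R E x = x := by
    intro x
    have h1 : IsClosed {x | R E x = x} := isClosed_eq ((D.hR E).continuous h) continuous_id
    have : Nonempty Γ := h.nonempty
    have : IsDirectedOrder Γ := ⟨fun s t => h.directed s t⟩
    refine h1.mem_of_tendsto (h.lim x) (Eventually.of_forall fun s => ?_)
    obtain ⟨A, hA, _, hAs⟩ := hcap s
    change R E (r s x) = r s x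
    rw [← hAs x]
    exact D.big hA _
  have hEx : ∀ s ∈ E, ∃ x, r s x = x ∧ R (Below E s) x ≠ x := fun s hs => (hE s).mp hs
  let Fm : Set Γ → Set K := fun A => range (R A)
  let idx : Set K → Set Γ := fun F => {s | s ∈ E ∧ range (r s) ⊆ F}
  have hidx : ∀ A, Closed w γ Sf E A → idx (Fm A) = A := by
    intro A hA
    ext s
    constructor
    · rintro ⟨hs, hsF⟩
      obtain ⟨x, hx, hx'⟩ := hEx s hs
      obtain ⟨z, hz⟩ := hsF ⟨x, hx⟩
      refine recover D hSf1 hSf3 hA hs hx hx' ?_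
      rw [← hz]
      exact D.big Subset.rfl z
    · intro hs
      refine ⟨hA.1 hs, ?_⟩
      rintro _ ⟨x, rfl⟩
      exact ⟨r s x, D.fix' hs x⟩
  have hFm : ∀ {A B : Set Γ}, A ⊆ B → Fm A ⊆ Fm B := by
    rintro A B hAB _ ⟨z, rfl⟩
    exact ⟨R A z, D.big hAB z⟩
  have hidx' : ∀ {F G : Set K}, F ⊆ G → idx F ⊆ idx G := fun hFG s hs => ⟨hs.1, hs.2.trans hFG⟩
  let 𝓕 : Set (Set K) := {F | ∃ A, Closed w γ Sf E A ∧ Fm A = F}
  have h𝓕 : ∀ F ∈ 𝓕, Closed w γ Sf E (idx F) ∧ Fm (idx F) = F := by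
    rintro F ⟨A, hA, rfl⟩
    rw [hidx A hA]
    exact ⟨hA, rfl⟩
  have hcomp : ∀ F ∈ 𝓕, IsCompact F := by
    rintro F ⟨A, hA, rfl⟩
    exact isCompact_range ((D.hR A).continuous h)
  have hsup : ∀ F : ℕ → 𝓕, Monotone F → Closed w γ Sf E (⋃ n, idx (F n)) ∧
      Fm (⋃ n, idx (F n)) = closure (⋃ n, (F n : Set K)) := by
    intro F hF
    have hm : Monotone fun n => idx (F n : Set K) := fun n m hnm => hidx' (hF hnm)
    refine ⟨closed_iUnion hm fun n => (h𝓕 _ (F n).2).1, Subset.antisymm ?_ ?_⟩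
    · rintro _ ⟨y, rfl⟩
      refine (D.hR (⋃ n, idx (F n))).mem_closed (D.dir _) isClosed_closure Gen.base fun b hb _ => ?_
      obtain ⟨n, hn⟩ := gen_iUnion hm hb
      apply subset_closure
      refine mem_iUnion.mpr ⟨n, ?_⟩
      rw [← (h𝓕 _ (F n).2).2]
      exact ⟨r b y, D.fix hn y⟩
    · refine closure_minimal (iUnion_subset fun n => ?_)
        (isCompact_range ((D.hR (⋃ n, idx (F n))).continuous h)).isClosed
      rw [← (h𝓕 _ (F n).2).2]
      exact hFm (subset_iUnion (fun n => idx (F n : Set K)) n)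
  have hlub : ∀ F : ℕ → 𝓕, Monotone F → ∃ hF : closure (⋃ n, (F n : Set K)) ∈ 𝓕,
      IsLUB (range F) (⟨closure (⋃ n, (F n : Set K)), hF⟩ : 𝓕) := by
    intro F hF
    refine ⟨⟨_, (hsup F hF).1, (hsup F hF).2⟩, ?_, ?_⟩
    · rintro _ ⟨n, rfl⟩
      exact (subset_iUnion (fun n => (F n : Set K)) n).trans subset_closure
    · intro G hG
      exact closure_minimal (iUnion_subset fun n => hG ⟨n, rfl⟩) (hcomp _ G.2).isClosed
  let ρ : 𝓕 → K → K := fun F => R (idx F)
  have hrange : ∀ F : 𝓕, range (ρ F) = F := fun F => (h𝓕 _ F.2).2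
  have hmem : ∀ F : 𝓕, ∃ t, ρ F = r t := by
    intro F
    obtain ⟨t, ht⟩ := D.member (h𝓕 _ F.2).1.2.1
    exact ⟨t, funext ht⟩
  refine ⟨𝓕, ρ, hcomp, hlub, hrange, ?_, ?_⟩
  · refine ⟨?_, ?_, ?_, ?_, ?_, ?_, ?_, ?_, ?_⟩
    · obtain ⟨A, hA, _⟩ := closed_cofinal (w := w) (γ := γ) hSf1 hSf2 (empty_subset E) countable_empty
      exact ⟨⟨Fm A, A, hA, rfl⟩⟩
    · intro F G
      obtain ⟨A, hA, hFG⟩ := closed_cofinal (w := w) (γ := γ) hSf1 hSf2
        (union_subset (h𝓕 _ F.2).1.1 (h𝓕 _ G.2).1.1) ((h𝓕 _ F.2).1.2.1.union (h𝓕 _ G.2).1.2.1)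
      refine ⟨⟨Fm A, A, hA, rfl⟩, ?_, ?_⟩
      · change (F : Set K) ⊆ Fm A
        rw [← (h𝓕 _ F.2).2]
        exact hFm (subset_union_left.trans hFG)
      · change (G : Set K) ⊆ Fm A
        rw [← (h𝓕 _ G.2).2]
        exact hFm (subset_union_right.trans hFG)
    · intro F hF
      obtain ⟨h1, h2⟩ := hlub F hF
      exact ⟨_, h2⟩
    · intro F
      exact (D.hR _).continuous h
    · intro F
      funext x
      exact D.big Subset.rfl x
    · intro F
      obtain ⟨t, ht⟩ := hmem F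
      rw [ht]
      exact h.metrizable t
    · intro F G hFG
      have h1 : idx F ⊆ idx G := hidx' hFG
      exact ⟨funext fun x => (D.small h1 x).symm, funext fun x => (D.big h1 x).symm⟩
    · intro F hF t ht x
      obtain ⟨h1, h2⟩ := hlub F hF
      have h3 : t = ⟨closure (⋃ n, (F n : Set K)), h1⟩ := ht.unique h2
      have h4 : idx (t : Set K) = ⋃ n, idx (F n) := by
        rw [h3]
        change idx (closure (⋃ n, (F n : Set K))) = _
        rw [← (hsup F hF).2, hidx _ (hsup F hF).1]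
      have hm : Monotone fun n => idx (F n : Set K) := fun n m hnm => hidx' (hF hnm)
      change Tendsto (fun n => R (idx (F n)) x) atTop (𝓝 (R (idx t) x))
      rw [h4, Uniform.tendsto_nhds_left]
      intro V hV
      obtain ⟨a, ha, haC⟩ := lim_mono D (⋃ n, idx (F n)) hV
      obtain ⟨m, hm'⟩ := gen_iUnion hm ha
      rw [mem_map]
      filter_upwards [eventually_ge_atTop m] with n hn
      exact haC (idx (F n)) (subset_iUnion (fun n => idx (F n : Set K)) n) (gen_mono (hm hn) hm') x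
    · intro x
      rw [Uniform.tendsto_nhds_left]
      intro V hV
      obtain ⟨a, ha, haC⟩ := lim_mono D E hV
      obtain ⟨S, hS, hSE, haS⟩ := gen_finite ha
      obtain ⟨A, hA, hSA⟩ := closed_cofinal (w := w) (γ := γ) hSf1 hSf2 hSE hS.countable
      rw [mem_map]
      filter_upwards [eventually_ge_atTop (⟨Fm A, A, hA, rfl⟩ : 𝓕)] with G hG
      have h1 : A ⊆ idx G := by
        rw [← hidx A hA]
        exact hidx' hG
      have := haC (idx G) (fun s hs => hs.1) (gen_mono (hSA.trans h1) haS) x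
      rwa [hRE] at this
  · apply Subset.antisymm
    · refine iUnion_subset fun F => ?_
      obtain ⟨t, ht⟩ := hmem F
      rw [ht]
      exact subset_iUnion (fun s => range (r s)) t
    · refine iUnion_subset fun s => ?_
      obtain ⟨A₀, hA₀, hc, hAs⟩ := hcap s
      obtain ⟨A, hA, hAA⟩ := closed_cofinal (w := w) (γ := γ) hSf1 hSf2 hA₀ hc
      rintro _ ⟨x, rfl⟩
      refine mem_iUnion.mpr ⟨⟨Fm A, A, hA, rfl⟩, ?_⟩
      rw [hrange]
      change r s x ∈ Fm A
      rw [← hAs x]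
      exact ⟨R A₀ (r s x), D.big hAA _⟩

end

theorem result {K : Type u} [TopologicalSpace K] [CompactSpace K] [T2Space K] {Γ : Type v} [PartialOrder Γ]
    (r : Γ → K → K) (h : RetractionalSkeleton r) :
    ∃ (𝓕 : Set (Set K)) (ρ : 𝓕 → K → K),
      (∀ F ∈ 𝓕, IsCompact F) ∧
      (∀ F : ℕ → 𝓕, Monotone F → ∃ hF : closure (⋃ n, (F n : Set K)) ∈ 𝓕,
        IsLUB (range F) ⟨closure (⋃ n, (F n : Set K)), hF⟩) ∧
      (∀ F : 𝓕, range (ρ F) = F) ∧
      RetractionalSkeleton ρ ∧ induced ρ = induced r := by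
  let _ : UniformSpace K := uniformSpaceOfCompactR1
  exact main h

end Pool.Agent.Results.MP_fcea8d_gt.RangeIndexed
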